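import Pool.Agent.TH176.WL.Defs

/-! Injectivity of the multiplication by `x_0`: syzygies and the restriction to `x_0 = 0`. -/

set_option autoImplicit false

namespace Pool.Agent.TH176.WL.Inj_

open MvPolynomial Pool.Agent.TH206.Fro Pool.Agent.TH176.FB

variable {K : Type} [Field K] {n : ℕ}

lemma rho_monomial_zero (a : Fin (n + 1) →₀ ℕ) (ha : a 0 ≠ 0) :
    rho K n (monomial a (1 : K)) = 0 := by
  unfold rho
  rw [aeval_monomial, Finsupp.prod_fintype _ _ (fun i => pow_zero _), Fin.prod_univ_succ,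
    Fin.cons_zero, zero_pow ha, zero_mul, mul_zero]

lemma rho_monomial_cons (b : Fin n →₀ ℕ) :
    rho K n (monomial (Finsupp.cons 0 b) (1 : K)) = monomial b 1 := by
  unfold rho
  rw [aeval_monomial, Finsupp.prod_fintype _ _ (fun i => pow_zero _), Fin.prod_univ_succ,
    Finsupp.cons_zero, pow_zero, one_mul, map_one, one_mul, monomial_eq, map_one, one_mul,
    Finsupp.prod_fintype _ _ (fun i => pow_zero _)]
  exact Finset.prod_congr rfl fun j _ => by rw [Fin.cons_succ, Finsupp.cons_succ]

lemma degree_cons (b : Fin n →₀ ℕ) : (Finsupp.cons 0 b : Fin (n + 1) →₀ ℕ).degree = b.degree := by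
  rw [Finsupp.degree_eq_sum, Finsupp.degree_eq_sum, Fin.sum_univ_succ, Finsupp.cons_zero, zero_add]
  exact Finset.sum_congr rfl fun j _ => by rw [Finsupp.cons_succ]

/-- The lift of a multiple of a form in `n` variables to `n + 1` variables. -/
noncomputable def lift {r k : ℕ} {d : Fin r → ℕ} (q : Ro n k d) : Ro (n + 1) k d :=
  ⟨q.1, ⟨Finsupp.cons 0 q.2.1, by rw [degree_cons]; exact q.2.2⟩⟩

lemma lift_inj {r k : ℕ} {d : Fin r → ℕ} : Function.Injective (lift : Ro n k d → Ro (n + 1) k d) := by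
  rintro ⟨i, b, hb⟩ ⟨j, c, hc⟩ h
  unfold lift at h
  simp only [Sigma.mk.injEq] at h
  obtain ⟨rfl, h2⟩ := h
  have h3 := congrArg (fun z => z.1) (eq_of_heq h2)
  simp only at h3
  have h4 : b = c := by
    have := congrArg Finsupp.tail h3
    rwa [Finsupp.tail_cons, Finsupp.tail_cons] at this
  subst h4
  rfl

lemma mem_range_lift {r k : ℕ} {d : Fin r → ℕ} (p : Ro (n + 1) k d) (hp : p.2.1 0 = 0) :
    p ∈ Set.range (lift : Ro n k d → Ro (n + 1) k d) := by
  obtain ⟨i, a, ha⟩ := p
  simp only at hp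
  have h1 : Finsupp.cons 0 (Finsupp.tail a) = a := by
    rw [← hp]; exact Finsupp.cons_tail a
  refine ⟨⟨i, ⟨Finsupp.tail a, ?_⟩⟩, ?_⟩
  · rw [← degree_cons, h1]; exact ha
  · unfold lift
    simp only [h1]

end Pool.Agent.TH176.WL.Inj_

namespace Pool.Agent.TH176.WL

open MvPolynomial Pool.Agent.TH206.Fro Pool.Agent.TH176.FB

theorem wl_inj {K : Type} [Field K] {n r k : ℕ} {d : Fin r → ℕ}
    (f : Fin r → MvPolynomial (Fin (n + 1)) K) (hf : ∀ i, (f i).IsHomogeneous (d i))
    (h : Fintype.card (Ro n (k + 1) d) ≤ Module.finrank K (ik (fun i => rho K n (f i)) (k + 1)))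
    (g : MvPolynomial (Fin (n + 1)) K) (hg : g.IsHomogeneous k)
    (hfg : X 0 * g ∈ Ideal.span (Set.range f)) : g ∈ Ideal.span (Set.range f) := by
  classical
  -- the restricted forms are homogeneous
  have hrho : ∀ i, (rho K n (f i)).IsHomogeneous (d i) := by
    intro i
    rw [← (f i).support_sum_monomial_coeff, map_sum]
    refine IsHomogeneous.sum _ _ _ fun a ha => ?_
    have hdeg : a.degree = d i := by
      by_contra hne
      exact (mem_support_iff.1 ha) ((hf i).coeff_eq_zero hne)
    have h1 : monomial a (coeff a (f i)) = (coeff a (f i)) • monomial a (1 : K) := by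
      rw [smul_monomial, smul_eq_mul, mul_one]
    rw [h1, map_smul, smul_eq_C_mul]
    by_cases h0 : a 0 = 0
    · have h2 : Finsupp.cons 0 (Finsupp.tail a) = a := by
        rw [← h0]; exact Finsupp.cons_tail a
      rw [← h2, Inj_.rho_monomial_cons]
      have h3 : (Finsupp.tail a).degree = d i := by
        rw [← Inj_.degree_cons, h2]; exact hdeg
      have h4 := (isHomogeneous_C (Fin n) (coeff (Finsupp.cons 0 (Finsupp.tail a)) (f i))).mul
        (isHomogeneous_monomial (1 : K) h3)
      rwa [zero_add] at h4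
    · rw [Inj_.rho_monomial_zero a h0, mul_zero]
      exact isHomogeneous_zero _ _ _
  -- linear independence of the multiples of the restricted forms
  have hli : LinearIndependent K (fun q : Ro n (k + 1) d =>
      monomial q.2.1 (1 : K) * rho K n (f q.1)) := by
    rw [linearIndependent_iff_card_le_finrank_span]
    refine h.trans ?_
    unfold ik
    rw [span_inf_eq' d _ hrho]
    exact le_rfl
  -- the relation
  have hmem : X 0 * g ∈ Submodule.span K (Set.range fun p : Ro (n + 1) (k + 1) d =>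
      monomial p.2.1 (1 : K) * f p.1) := by
    rw [← span_inf_eq' d f hf]
    refine ⟨hfg, ?_⟩
    have h1 := (isHomogeneous_X K (0 : Fin (n + 1))).mul hg
    rw [add_comm 1 k] at h1
    exact h1
  rw [Submodule.mem_span_range_iff_exists_fun] at hmem
  obtain ⟨c, hc⟩ := hmem
  have hr : ∑ q : Ro n (k + 1) d, c (Inj_.lift q) • (monomial q.2.1 (1 : K) * rho K n (f q.1)) = 0 := by
    have h1 := congrArg (rho K n) hc
    rw [map_sum, map_mul] at h1
    have h2 : rho K n (X 0) = 0 := by
      unfold rho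
      rw [aeval_X, Fin.cons_zero]
    rw [h2, zero_mul] at h1
    rw [← h1]
    refine Fintype.sum_of_injective Inj_.lift Inj_.lift_inj _ _ ?_ ?_
    · intro p hp
      have h3 : p.2.1 0 ≠ 0 := fun h0 => hp (Inj_.mem_range_lift p h0)
      rw [map_smul, map_mul, Inj_.rho_monomial_zero _ h3, zero_mul, smul_zero]
    · intro q
      rw [map_smul, map_mul]
      unfold Inj_.lift
      rw [Inj_.rho_monomial_cons]
  have hz : ∀ q : Ro n (k + 1) d, c (Inj_.lift q) = 0 :=
    Fintype.linearIndependent_iff.1 hli (fun q => c (Inj_.lift q)) hr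
  have hz' : ∀ p : Ro (n + 1) (k + 1) d, p.2.1 0 = 0 → c p = 0 := by
    intro p hp
    obtain ⟨q, rfl⟩ := Inj_.mem_range_lift p hp
    exact hz q
  have hg2 : g = ∑ p : Ro (n + 1) (k + 1) d,
      c p • (monomial (p.2.1 - Finsupp.single 0 1) (1 : K) * f p.1) := by
    apply mul_left_cancel₀ (X_ne_zero (0 : Fin (n + 1)) : (X 0 : MvPolynomial (Fin (n + 1)) K) ≠ 0)
    rw [← hc, Finset.mul_sum]
    refine Finset.sum_congr rfl fun p _ => ?_
    by_cases hp : p.2.1 0 = 0
    · rw [hz' p hp, zero_smul, zero_smul, mul_zero]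
    · have h3 : Finsupp.single 0 1 + (p.2.1 - Finsupp.single 0 1) = p.2.1 := by
        rw [add_tsub_cancel_of_le]
        rw [Finsupp.single_le_iff]
        omega
      have h4 : monomial p.2.1 (1 : K) =
          X 0 * monomial (p.2.1 - Finsupp.single 0 1) (1 : K) := by
        rw [X, monomial_mul, mul_one, h3]
      rw [h4, mul_smul_comm, mul_assoc]
  rw [hg2]
  refine Ideal.sum_mem _ fun p _ => ?_
  rw [smul_eq_C_mul]
  exact Ideal.mul_mem_left _ _ (Ideal.mul_mem_left _ _ (Ideal.subset_span ⟨p.1, rfl⟩))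

end Pool.Agent.TH176.WL
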