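import Pool.Agent.TH176.WL.Defs

set_option autoImplicit false

namespace Pool.Agent.TH176.WL

open MvPolynomial Pool.Agent.TH206.Fro Pool.Agent.TH176.FB

namespace Poly_

lemma degree_cons {n : ℕ} (m : Fin n →₀ ℕ) :
    Finsupp.degree (Finsupp.cons 0 m) = Finsupp.degree m := by
  rw [Finsupp.degree_eq_sum, Finsupp.degree_eq_sum, Fin.sum_univ_succ, Finsupp.cons_zero, zero_add]
  simp only [Finsupp.cons_succ]

lemma rho_eq (K : Type) [Field K] (n : ℕ) (f : MvPolynomial (Fin (n + 1)) K) :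
    rho K n f = Polynomial.eval 0 (finSuccEquiv K n f) := by
  have h : rho K n = ((Polynomial.aeval (0 : MvPolynomial (Fin n) K)).restrictScalars K).comp
      (finSuccEquiv K n).toAlgHom := by
    apply MvPolynomial.algHom_ext
    intro j
    refine Fin.cases ?_ (fun j => ?_) j
    · unfold rho
      rw [aeval_X, Fin.cons_zero]
      simp [finSuccEquiv_X_zero]
    · unfold rho
      rw [aeval_X, Fin.cons_succ]
      simp [finSuccEquiv_X_succ]
  rw [h]
  show Polynomial.aeval (0 : MvPolynomial (Fin n) K) (finSuccEquiv K n f) = _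
  rw [Polynomial.coe_aeval_eq_eval]

lemma coeff_rho (K : Type) [Field K] (n : ℕ) (f : MvPolynomial (Fin (n + 1)) K) (m : Fin n →₀ ℕ) :
    (rho K n f).coeff m = f.coeff (Finsupp.cons 0 m) := by
  rw [rho_eq, ← Polynomial.coeff_zero_eq_eval_zero]
  exact finSuccEquiv_coeff_coeff m f 0

end Poly_

theorem wl_poly (K : Type) [Field K] (n r : ℕ) (d : Fin r → ℕ)
    (P : MvPolynomial (Io n d) K) (hP : P ≠ 0) : ∃ Q : MvPolynomial (Io (n + 1) d) K, Q ≠ 0 ∧
      ∀ f : Fin r → MvPolynomial (Fin (n + 1)) K, (∀ i, (f i).IsHomogeneous (d i)) →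
        MvPolynomial.eval (fun s : Io (n + 1) d => (f s.1).coeff s.2.1) Q ≠ 0 →
        (∀ i, (rho K n (f i)).IsHomogeneous (d i)) ∧
          MvPolynomial.eval (fun s : Io n d => (rho K n (f s.1)).coeff s.2.1) P ≠ 0 := by
  obtain ⟨φ, hφ⟩ : ∃ φ : Io n d → Io (n + 1) d, φ = fun s =>
    ⟨s.1, ⟨Finsupp.cons 0 s.2.1, (Poly_.degree_cons s.2.1).trans s.2.2⟩⟩ := ⟨_, rfl⟩
  have hinj : Function.Injective φ := by
    rintro ⟨i, m, hm⟩ ⟨j, m', hm'⟩ h
    rw [hφ] at h
    simp only [Sigma.mk.injEq] at h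
    obtain ⟨h1, h2⟩ := h
    subst h1
    have h3 := congrArg Subtype.val (eq_of_heq h2)
    have h4 : m = m' := by
      have h5 := congrArg Finsupp.tail h3
      rwa [Finsupp.tail_cons, Finsupp.tail_cons] at h5
    subst h4
    rfl
  refine ⟨rename φ P, fun h => hP (rename_injective φ hinj (by rw [h, map_zero])), ?_⟩
  intro f hf hQ
  constructor
  · intro i m hm
    rw [Poly_.coeff_rho] at hm
    have h1 := hf i hm
    have hw : ∀ (k : ℕ) (u : Fin k →₀ ℕ), Finsupp.weight (1 : Fin k → ℕ) u =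
        Finsupp.degree u := fun k u => by
      rw [Finsupp.degree_eq_weight_one]
      rfl
    rw [hw] at h1 ⊢
    rwa [Poly_.degree_cons] at h1
  · rw [eval_rename] at hQ
    have e : (fun s : Io n d => (rho K n (f s.1)).coeff s.2.1) =
        (fun s : Io (n + 1) d => (f s.1).coeff s.2.1) ∘ φ := by
      funext s
      rw [Poly_.coeff_rho, hφ]
      rfl
    rw [e]
    exact hQ

end Pool.Agent.TH176.WL
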