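import Pool.Agent.TH176.WL.Defs

/-!
Surjectivity of the multiplication by the variable `x_0` modulo the ideal of the forms.
-/

set_option autoImplicit false

namespace Pool.Agent.TH176.WL

open MvPolynomial Pool.Agent.TH206.Fro Pool.Agent.TH176.FB

namespace Surj_

theorem rho_X0 (K : Type) [Field K] (n : ℕ) : rho K n (X 0) = 0 := by
  unfold rho
  rw [aeval_X, Fin.cons_zero]

theorem rho_Xs (K : Type) [Field K] (n : ℕ) (j : Fin n) : rho K n (X j.succ) = X j := by
  unfold rho
  rw [aeval_X, Fin.cons_succ]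

theorem rho_hom {K : Type} [Field K] {n k : ℕ} (F : MvPolynomial (Fin (n + 1)) K)
    (hF : F.IsHomogeneous k) : (rho K n F).IsHomogeneous k := by
  have h := hF.aeval (n := 1) (Fin.cons 0 (fun j => X j) : Fin (n + 1) → MvPolynomial (Fin n) K)
    (fun i => by
      refine Fin.cases ?_ (fun j => ?_) i
      · rw [Fin.cons_zero]
        exact isHomogeneous_zero _ _ _
      · rw [Fin.cons_succ]
        exact isHomogeneous_X _ _)
  rw [one_mul] at h
  exact h

theorem rho_rename {K : Type} [Field K] {n : ℕ} (q : MvPolynomial (Fin n) K) :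
    rho K n (rename Fin.succ q) = q := by
  unfold rho
  rw [aeval_rename]
  have h : ((Fin.cons 0 (fun j => X j) : Fin (n + 1) → MvPolynomial (Fin n) K) ∘ Fin.succ) =
      X := by
    funext j
    simp
  rw [h]
  exact aeval_X_left_apply q

theorem sub_mem {K : Type} [Field K] {n : ℕ} (P : MvPolynomial (Fin (n + 1)) K) :
    P - rename Fin.succ (rho K n P) ∈ Ideal.span {(X 0 : MvPolynomial (Fin (n + 1)) K)} := by
  induction P using MvPolynomial.induction_on with
  | C a =>
    have h : rho K n (C a) = C a := by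
      unfold rho
      exact aeval_C _ a
    rw [h, rename_C, sub_self]
    exact Ideal.zero_mem _
  | add p q hp hq =>
    rw [map_add, map_add]
    have h : p + q - (rename Fin.succ (rho K n p) + rename Fin.succ (rho K n q)) =
        (p - rename Fin.succ (rho K n p)) + (q - rename Fin.succ (rho K n q)) := by ring
    rw [h]
    exact Ideal.add_mem _ hp hq
  | mul_X p i hp =>
    rw [map_mul, map_mul]
    refine Fin.cases ?_ (fun j => ?_) i
    · rw [rho_X0, map_zero, mul_zero, sub_zero]
      exact Ideal.mul_mem_left _ _ (Ideal.subset_span rfl)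
    · rw [rho_Xs, rename_X, ← sub_mul]
      exact Ideal.mul_mem_right _ _ hp

end Surj_

theorem wl_surj {K : Type} [Field K] {n r k : ℕ} {d : Fin r → ℕ}
    (f : Fin r → MvPolynomial (Fin (n + 1)) K) (hf : ∀ i, (f i).IsHomogeneous (d i))
    (h : (Mon n (k + 1)).card ≤ Module.finrank K (ik (fun i => rho K n (f i)) (k + 1)))
    (F : MvPolynomial (Fin (n + 1)) K) (hF : F.IsHomogeneous (k + 1)) :
    ∃ g : MvPolynomial (Fin (n + 1)) K, g.IsHomogeneous k ∧
      F - X 0 * g ∈ Ideal.span (Set.range f) := by
  classical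
  letI : GradedAlgebra (homogeneousSubmodule (Fin (n + 1)) K) := MvPolynomial.gradedAlgebra
  have h1 : rho K n F ∈ ik (fun i => rho K n (f i)) (k + 1) :=
    ik_top_of_card _ _ h ((mem_homogeneousSubmodule _ _).2 (Surj_.rho_hom F hF))
  have h2 : rho K n F ∈ Ideal.span (Set.range fun i => rho K n (f i)) := h1.1
  obtain ⟨c, hc⟩ := Ideal.mem_span_range_iff_exists_fun.1 h2
  have h3 : rho K n (F - ∑ i, rename Fin.succ (c i) * f i) = 0 := by
    rw [map_sub, map_sum, ← hc]
    simp only [map_mul, Surj_.rho_rename]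
    exact sub_self _
  have h4 := Surj_.sub_mem (F - ∑ i, rename Fin.succ (c i) * f i)
  rw [h3, map_zero, sub_zero, Ideal.mem_span_singleton] at h4
  obtain ⟨G, hG⟩ := h4
  have h5 : F - X 0 * G ∈ Ideal.span (Set.range f) := by
    have h6 : F - X 0 * G = ∑ i, rename Fin.succ (c i) * f i := by
      rw [← hG]
      ring
    rw [h6]
    exact Ideal.sum_mem _ fun i _ => Ideal.mul_mem_left _ _ (Ideal.subset_span ⟨i, rfl⟩)
  have hI : (Ideal.span (Set.range f)).IsHomogeneous
      (homogeneousSubmodule (Fin (n + 1)) K) := by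
    apply Ideal.homogeneous_span
    rintro x ⟨i, rfl⟩
    exact ⟨d i, (mem_homogeneousSubmodule _ _).2 (hf i)⟩
  refine ⟨(DirectSum.decompose (homogeneousSubmodule (Fin (n + 1)) K) G k :
    MvPolynomial (Fin (n + 1)) K), ?_, ?_⟩
  · exact (mem_homogeneousSubmodule _ _).1
      (DirectSum.decompose (homogeneousSubmodule (Fin (n + 1)) K) G k).2
  · have h7 := hI (k + 1) h5
    rw [DirectSum.decompose_sub, DirectSum.sub_apply, AddSubgroupClass.coe_sub,
      DirectSum.decompose_of_mem_same _ ((mem_homogeneousSubmodule _ _).2 hF)] at h7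
    have h8 : ((DirectSum.decompose (homogeneousSubmodule (Fin (n + 1)) K) (X 0 * G)) (k + 1) :
        MvPolynomial (Fin (n + 1)) K) = X 0 *
        (DirectSum.decompose (homogeneousSubmodule (Fin (n + 1)) K) G k :
          MvPolynomial (Fin (n + 1)) K) := by
      rw [add_comm k 1]
      exact DirectSum.coe_decompose_mul_add_of_left_mem _
        ((mem_homogeneousSubmodule _ _).2 (isHomogeneous_X _ _))
    rw [h8] at h7
    exact h7

end Pool.Agent.TH176.WL
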