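import Pool.Agent.TH176.WL.Rank
import Pool.Agent.TH176.WL.Inj
import Pool.Agent.TH176.WL.Surj
import Pool.Agent.TH176.WL.Poly

/-!
The weak Lefschetz property for generic forms.
-/

set_option autoImplicit false

namespace Pool.Agent.TH176.WL

open MvPolynomial Finset Pool.Agent.TH206.Fro Pool.Agent.TH176.FB Pool.Agent.TH176.RK

/-- Multiplication by `x_0` from degree `k` to degree `k + 1` of the quotient by the forms `f i` is
injective or surjective. -/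
def MR {K : Type} [Field K] {n r : ℕ} (f : Fin r → MvPolynomial (Fin (n + 1)) K) (k : ℕ) : Prop :=
  (∀ g : MvPolynomial (Fin (n + 1)) K, g.IsHomogeneous k → X 0 * g ∈ Ideal.span (Set.range f) →
    g ∈ Ideal.span (Set.range f)) ∨
  (∀ F : MvPolynomial (Fin (n + 1)) K, F.IsHomogeneous (k + 1) →
    ∃ g : MvPolynomial (Fin (n + 1)) K, g.IsHomogeneous k ∧
      F - X 0 * g ∈ Ideal.span (Set.range f))

/-- Maximal rank in the hyperplane gives maximal rank of the multiplication. -/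
theorem mr_of_rank {K : Type} [Field K] {n r k : ℕ} {d : Fin r → ℕ}
    (f : Fin r → MvPolynomial (Fin (n + 1)) K) (hf : ∀ i, (f i).IsHomogeneous (d i))
    (h : min (Fintype.card (Ro n (k + 1) d)) (Mon n (k + 1)).card ≤
      Module.finrank K (ik (fun i => rho K n (f i)) (k + 1))) : MR f k := by
  rcases min_le_iff.1 h with h1 | h1
  · exact Or.inl fun g hg hfg => wl_inj f hf h1 g hg hfg
  · exact Or.inr fun F hF => wl_surj f hf h1 F hF

/-- Weak Lefschetz property from maximal rank in one variable less. -/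
theorem wl_of {K : Type} [Field K] {n r : ℕ} {d : Fin r → ℕ} (T : ℕ → Prop)
    (H : ∃ P : MvPolynomial (Io n d) K, P ≠ 0 ∧
      ∀ f : Fin r → MvPolynomial (Fin n) K, (∀ i, (f i).IsHomogeneous (d i)) →
        MvPolynomial.eval (fun s : Io n d => (f s.1).coeff s.2.1) P ≠ 0 →
        ∀ k : ℕ, T k → min (Fintype.card (Ro n k d)) (Mon n k).card ≤ Module.finrank K (ik f k)) :
    ∃ P : MvPolynomial (Io (n + 1) d) K, P ≠ 0 ∧
      ∀ f : Fin r → MvPolynomial (Fin (n + 1)) K, (∀ i, (f i).IsHomogeneous (d i)) →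
        MvPolynomial.eval (fun s : Io (n + 1) d => (f s.1).coeff s.2.1) P ≠ 0 →
        ∀ k : ℕ, T (k + 1) → MR f k := by
  obtain ⟨P, hP, hP2⟩ := H
  obtain ⟨Q, hQ, hQ2⟩ := wl_poly K n r d P hP
  refine ⟨Q, hQ, fun f hf hfQ k hk => ?_⟩
  obtain ⟨h1, h2⟩ := hQ2 f hf hfQ
  exact mr_of_rank f hf (hP2 (fun i => rho K n (f i)) h1 h2 (k + 1) hk)

/-- At least `3 ^ (n - 2)` forms in `n = j + 4` variables. -/
theorem wl_many (j : ℕ) (K : Type) [Field K] [CharZero K] (r δ s : ℕ) (d : Fin r → ℕ) (u : ℝ)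
    (hu0 : 3 ≤ u) (hu : u ^ (j + 2) = r) (hδ : 1 ≤ δ) (hd : ∀ i, δ ≤ d i)
    (htop : (∀ i, 3 * d i ≤ 4 * δ) ∨
      u ^ (j + 1) * (2 * δ - 1) < ∑ i, ((2 * δ - d i : ℕ) : ℝ)) :
    ∃ k₀ : ℕ, ∃ P : MvPolynomial (Io (j + 4) d) K, P ≠ 0 ∧
      ∀ f : Fin r → MvPolynomial (Fin (j + 4)) K, (∀ i, (f i).IsHomogeneous (d i)) →
        MvPolynomial.eval (fun s : Io (j + 4) d => (f s.1).coeff s.2.1) P ≠ 0 →
        ∀ k : ℕ, (u * (((k + 1 : ℕ) : ℝ) + j + 2 - δ) + j < ((k + 1 : ℕ) : ℝ) ∨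
            u ^ (j + 1) * ((k + 1 : ℕ) : ℝ) < ∑ i, ((k + 1 + 1 - d i : ℕ) : ℝ) ∨
            ((∀ i, d i ≤ δ + s) ∧
              (k + 1 < k₀ ∨
                (k₀ : ℝ) + (j + 1 + s) + (2 * j + 1 + s) / (u - 1) < ((k + 1 : ℕ) : ℝ))) ∨
            ((∀ i, d i ≤ δ + s) ∧ 2 * (j + 2).factorial * (δ - 1 + u * s) ^ (j + 3) ≤
              (u - 1) ^ (j + 3) * (δ : ℝ) ^ (j + 2))) →
          MR f k := by
  obtain ⟨k₀, H⟩ := fro_rank j K r δ s d u hu0 hu hδ hd htop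
  exact ⟨k₀, wl_of (fun k => (u * (k + j + 2 - δ) + j < k ∨
            u ^ (j + 1) * k < ∑ i, ((k + 1 - d i : ℕ) : ℝ) ∨
            ((∀ i, d i ≤ δ + s) ∧
              (k < k₀ ∨ (k₀ : ℝ) + (j + 1 + s) + (2 * j + 1 + s) / (u - 1) < k)) ∨
            ((∀ i, d i ≤ δ + s) ∧ 2 * (j + 2).factorial * (δ - 1 + u * s) ^ (j + 3) ≤
              (u - 1) ^ (j + 3) * (δ : ℝ) ^ (j + 2)))) H⟩

end Pool.Agent.TH176.WL
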