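import Pool.Agent.TH176.FB.Base

/-! The restriction to a coordinate hyperplane. -/

set_option autoImplicit false

namespace Pool.Agent.TH176.WL

open MvPolynomial

/-- The restriction to the hyperplane `x_0 = 0`. -/
noncomputable def rho (K : Type) [Field K] (n : ℕ) :
    MvPolynomial (Fin (n + 1)) K →ₐ[K] MvPolynomial (Fin n) K :=
  aeval (Fin.cons 0 (fun j => X j) : Fin (n + 1) → MvPolynomial (Fin n) K)

end Pool.Agent.TH176.WL
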