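import Pool.Agent.TH176.WL.Main
import Pool.Agent.TH176.FB.Final3

/-!
The weak Lefschetz property in all degrees for perfect powers.
-/

set_option autoImplicit false

namespace Pool.Agent.TH176.WL

open MvPolynomial Finset Pool.Agent.TH206.Fro Pool.Agent.TH176.FB Pool.Agent.TH176.RK

lemma asc_two (a N : ℕ) : (2 * a).ascFactorial N ≤ 2 ^ N * a.ascFactorial N := by
  induction N with
  | zero => simp
  | succ N ih =>
    rw [Nat.ascFactorial_succ, Nat.ascFactorial_succ]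
    calc (2 * a + N) * (2 * a).ascFactorial N ≤ (2 * (a + N)) * (2 ^ N * a.ascFactorial N) :=
          Nat.mul_le_mul (by omega) ih
      _ = 2 ^ (N + 1) * ((a + N) * a.ascFactorial N) := by ring

/-- In degree `2 δ - 1` there are at least as many multiples as monomials. -/
lemma mon_le_ro {N r δ : ℕ} (hN : 1 ≤ N) (hδ : 1 ≤ δ) (hr : 2 ^ N ≤ r) :
    (Mon (N + 1) (2 * δ - 1)).card ≤
      Fintype.card (Ro (N + 1) (2 * δ - 1) (fun _ : Fin r => δ)) := by
  rw [card_Mon_choose, card_Ro_choose N r _ _ hN, Finset.sum_const, Finset.card_univ,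
    Fintype.card_fin, smul_eq_mul]
  have e1 : 2 * δ - 1 + 1 - δ + (N - 1) = (δ - 1) + N := by omega
  rw [e1]
  have h1 : N.factorial * (2 * δ - 1 + N).choose N = (2 * δ).ascFactorial N := by
    have h := Nat.ascFactorial_eq_factorial_mul_choose (2 * δ - 1) N
    have e2 : 2 * δ - 1 + 1 = 2 * δ := by omega
    rw [e2] at h
    exact h.symm
  have h2 : N.factorial * (δ - 1 + N).choose N = δ.ascFactorial N := by
    have h := Nat.ascFactorial_eq_factorial_mul_choose (δ - 1) N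
    have e2 : δ - 1 + 1 = δ := by omega
    rw [e2] at h
    exact h.symm
  refine Nat.le_of_mul_le_mul_left ?_ (Nat.factorial_pos N)
  calc N.factorial * (2 * δ - 1 + N).choose N = (2 * δ).ascFactorial N := h1
    _ ≤ 2 ^ N * δ.ascFactorial N := asc_two δ N
    _ ≤ r * δ.ascFactorial N := Nat.mul_le_mul_right _ hr
    _ = N.factorial * (r * (δ - 1 + N).choose N) := by rw [← h2]; ring

/-- The formula of Froeberg in all degrees gives maximal rank in all degrees. -/
theorem rank_of_fro (K : Type) [Field K] (N r δ : ℕ) (hN : 1 ≤ N) (hδ : 1 ≤ δ) (hr : 2 ^ N ≤ r)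
    (H : ∃ P : MvPolynomial (Io (N + 1) fun _ : Fin r => δ) K, P ≠ 0 ∧
      ∀ f : Fin r → MvPolynomial (Fin (N + 1)) K, (∀ i, (f i).IsHomogeneous δ) →
        MvPolynomial.eval (fun s : Io (N + 1) fun _ : Fin r => δ => (f s.1).coeff s.2.1) P ≠ 0 →
        ∀ k : ℕ, hilb f k = fro (N + 1) (fun _ : Fin r => δ) k) :
    ∃ P : MvPolynomial (Io (N + 1) fun _ : Fin r => δ) K, P ≠ 0 ∧
      ∀ f : Fin r → MvPolynomial (Fin (N + 1)) K, (∀ i, (f i).IsHomogeneous δ) →
        MvPolynomial.eval (fun s : Io (N + 1) fun _ : Fin r => δ => (f s.1).coeff s.2.1) P ≠ 0 →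
        ∀ k : ℕ, True → min (Fintype.card (Ro (N + 1) k (fun _ : Fin r => δ)))
          (Mon (N + 1) k).card ≤ Module.finrank K (ik f k) := by
  obtain ⟨P, hP, hP2⟩ := H
  refine ⟨P, hP, fun f hf hfP k _ => ?_⟩
  rcases lt_or_ge k (2 * δ) with h | h
  · exact hilb_conv K (N + 1) r k _ (by omega) (fun _ => h) f (hP2 f hf hfP k)
  · have h0 := hilb_conv K (N + 1) r (2 * δ - 1) _ (by omega) (fun _ => by omega) f
      (hP2 f hf hfP (2 * δ - 1))
    rw [min_eq_right (mon_le_ro hN hδ hr)] at h0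
    have h1 := ik_top_of_card f _ h0
    have h2 := ik_top_mono f (2 * δ - 1) k (by omega) h1
    refine (min_le_right _ _).trans ?_
    rw [← dim_thm (N + 1) k K]
    haveI : FiniteDimensional K (ik f k) :=
      Submodule.finiteDimensional_of_le (S₂ := homogeneousSubmodule (Fin (N + 1)) K k) inf_le_right
    exact Submodule.finrank_mono h2

/-- The weak Lefschetz property in all degrees: `t ^ n` forms in `n + 2` variables. -/
theorem wl_full (K : Type) [Field K] [CharZero K] (n t δ : ℕ)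
    (ht : (3 ≤ n ∧ (n + 1) ^ 2 ≤ t) ∨ (n = 3 ∧ 2 ≤ t)) (hδ : 1 ≤ δ) :
    ∃ P : MvPolynomial (Io (n + 2) fun _ : Fin (t ^ n) => δ) K, P ≠ 0 ∧
      ∀ f : Fin (t ^ n) → MvPolynomial (Fin (n + 2)) K, (∀ i, (f i).IsHomogeneous δ) →
        MvPolynomial.eval (fun s : Io (n + 2) fun _ : Fin (t ^ n) => δ =>
          (f s.1).coeff s.2.1) P ≠ 0 →
        ∀ k : ℕ, MR f k := by
  have ht2 : 2 ≤ t := by
    rcases ht with ⟨h1, h2⟩ | ⟨-, h⟩
    · nlinarith
    · exact h
  have hn : 3 ≤ n := by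
    rcases ht with ⟨h1, -⟩ | ⟨h, -⟩ <;> omega
  have H : ∃ P : MvPolynomial (Io (n + 1) fun _ : Fin (t ^ n) => δ) K, P ≠ 0 ∧
      ∀ f : Fin (t ^ n) → MvPolynomial (Fin (n + 1)) K, (∀ i, (f i).IsHomogeneous δ) →
        MvPolynomial.eval (fun s : Io (n + 1) fun _ : Fin (t ^ n) => δ => (f s.1).coeff s.2.1) P
          ≠ 0 → ∀ k : ℕ, hilb f k = fro (n + 1) (fun _ : Fin (t ^ n) => δ) k := by
    rcases ht with ⟨-, h⟩ | ⟨rfl, h⟩
    · obtain ⟨m, rfl⟩ : ∃ m, n = m + 1 := ⟨n - 1, by omega⟩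
      exact allN K m t δ (by omega) h hδ
    · exact four K t δ h hδ
  obtain ⟨P, hP, hP2⟩ := wl_of (fun _ => True) (rank_of_fro K n (t ^ n) δ (by omega) hδ
    (Nat.pow_le_pow_left ht2 n) H)
  exact ⟨P, hP, fun f hf hfP k => hP2 f hf hfP k trivial⟩

end Pool.Agent.TH176.WL
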