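import Pool.Agent.TH176.RK.Fro2

/-!
Maximal rank from the formula of Froeberg.
-/

set_option autoImplicit false

namespace Pool.Agent.TH176.WL

open MvPolynomial Finset Pool.Agent.TH206.Fro Pool.Agent.TH176.FB Pool.Agent.TH176.RK

/-- The formula in small degrees gives maximal rank. -/
theorem hilb_conv (K : Type) [Field K] (n r k : ℕ) (d : Fin r → ℕ) (hn : 1 ≤ n)
    (hD : ∀ i, k < 2 * d i) (f : Fin r → MvPolynomial (Fin n) K) (h : hilb f k = fro n d k) :
    min (Fintype.card (Ro n k d)) (Mon n k).card ≤ Module.finrank K (ik f k) := by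
  classical
  have hh : hilb f k = ((Mon n k).card : ℤ) - (Module.finrank K (ik f k) : ℤ) := by
    unfold hilb ik
    rw [dim_thm n k K]
  have hco : co n d k = ((Mon n k).card : ℤ) - (Fintype.card (Ro n k d) : ℤ) := by
    rw [co_thm n r k d hn hD k le_rfl, card_Ro]
    push_cast
    rfl
  rw [hh] at h
  unfold fro at h
  split_ifs at h with h1
  · rw [hco] at h
    exact (min_le_left _ _).trans (by omega)
  · exact (min_le_right _ _).trans (by omega)

/-- At least `3 ^ (n - 1)` forms in `n = j + 3` variables: maximal rank. -/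
theorem fro_rank (j : ℕ) (K : Type) [Field K] [CharZero K] (r δ s : ℕ) (d : Fin r → ℕ) (u : ℝ)
    (hu0 : 3 ≤ u) (hu : u ^ (j + 2) = r) (hδ : 1 ≤ δ) (hd : ∀ i, δ ≤ d i)
    (htop : (∀ i, 3 * d i ≤ 4 * δ) ∨
      u ^ (j + 1) * (2 * δ - 1) < ∑ i, ((2 * δ - d i : ℕ) : ℝ)) :
    ∃ k₀ : ℕ, ∃ P : MvPolynomial (Io (j + 3) d) K, P ≠ 0 ∧
      ∀ f : Fin r → MvPolynomial (Fin (j + 3)) K, (∀ i, (f i).IsHomogeneous (d i)) →
        MvPolynomial.eval (fun s : Io (j + 3) d => (f s.1).coeff s.2.1) P ≠ 0 →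
        ∀ k : ℕ, (u * (k + j + 2 - δ) + j < k ∨
            u ^ (j + 1) * k < ∑ i, ((k + 1 - d i : ℕ) : ℝ) ∨
            ((∀ i, d i ≤ δ + s) ∧
              (k < k₀ ∨ (k₀ : ℝ) + (j + 1 + s) + (2 * j + 1 + s) / (u - 1) < k)) ∨
            ((∀ i, d i ≤ δ + s) ∧ 2 * (j + 2).factorial * (δ - 1 + u * s) ^ (j + 3) ≤
              (u - 1) ^ (j + 3) * (δ : ℝ) ^ (j + 2))) →
          min (Fintype.card (Ro (j + 3) k d)) (Mon (j + 3) k).card ≤
            Module.finrank K (ik f k) := by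
  classical
  have hδR : (1 : ℝ) ≤ δ := by exact_mod_cast hδ
  have htop' : u ^ (j + 1) * (2 * δ - 1) < ∑ i, ((2 * δ - d i : ℕ) : ℝ) := by
    rcases htop with h | h
    · have h1 : ∀ i, (2 * (δ : ℝ)) / 3 ≤ ((2 * δ - d i : ℕ) : ℝ) := by
        intro i
        have h2 := h i
        have h3 : 2 * δ ≤ 3 * (2 * δ - d i) := by omega
        have h4 : ((2 * δ : ℕ) : ℝ) ≤ ((3 * (2 * δ - d i) : ℕ) : ℝ) := by exact_mod_cast h3
        push_cast at h4
        linarith
      have h2 : (r : ℝ) * ((2 * (δ : ℝ)) / 3) ≤ ∑ i, ((2 * δ - d i : ℕ) : ℝ) := by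
        calc (r : ℝ) * ((2 * (δ : ℝ)) / 3) = ∑ _i : Fin r, (2 * (δ : ℝ)) / 3 := by simp
          _ ≤ _ := Finset.sum_le_sum fun i _ => h1 i
      refine lt_of_lt_of_le ?_ h2
      rw [← hu]
      have h3 : u ^ (j + 2) * ((2 * (δ : ℝ)) / 3) = u ^ (j + 1) * (u * (2 * δ) / 3) := by ring
      rw [h3]
      refine mul_lt_mul_of_pos_left ?_ (by positivity)
      have h4 : 3 * (2 * (δ : ℝ)) ≤ u * (2 * δ) := mul_le_mul_of_nonneg_right hu0 (by linarith)
      linarith
    · exact h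
  obtain ⟨k₀, P1, hP1, hP1'⟩ := fro_final j K r δ s d u hu0 hu hδ hd htop
  obtain ⟨P2, hP2, hP2'⟩ := emp_each j K r u hu0 hu d (2 * δ - 1) (by
    have e1 : ∀ i, 2 * δ - 1 + 1 - d i = 2 * δ - d i := fun i => by omega
    simp only [e1]
    rw [Nat.cast_sub (by omega)]
    push_cast
    exact htop')
  refine ⟨k₀, P1 * P2, mul_ne_zero hP1 hP2, fun f hf hfP k hk => ?_⟩
  rw [map_mul] at hfP
  rcases lt_or_ge k (2 * δ) with h | h
  · exact hilb_conv K (j + 3) r k d (by omega) (fun i => by have := hd i; omega) f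
      (hP1' f hf (left_ne_zero_of_mul hfP) k hk)
  · have h1 := ik_top_of_card f _ (hP2' f hf (right_ne_zero_of_mul hfP))
    have h2 := ik_top_mono f (2 * δ - 1) k (by omega) h1
    refine (min_le_right _ _).trans ?_
    rw [← dim_thm (j + 3) k K]
    haveI : FiniteDimensional K (ik f k) :=
      Submodule.finiteDimensional_of_le (S₂ := homogeneousSubmodule (Fin (j + 3)) K k) inf_le_right
    exact Submodule.finrank_mono h2

end Pool.Agent.TH176.WL
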